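import Mathlib

namespace Pool.Agent.Results.MP_bfa999_lc.LengthBound

open Module Matrix Finset

/-- The set of ranks of the nonzero elements of a matrix code. -/
def rankSet {F : Type} [Field F] {m n : ℕ} (C : Submodule F (Matrix (Fin m) (Fin n) F)) : Set ℕ :=
  {r | ∃ A ∈ C, A ≠ 0 ∧ A.rank = r}

/-- `C` is an MWS rank-metric code of dimension `k`. -/
def IsMWS {F : Type} [Field F] [Fintype F] (k : ℕ) {m n : ℕ}
    (C : Submodule F (Matrix (Fin m) (Fin n) F)) : Prop :=
  finrank F C = k ∧ (rankSet C).ncard = (Fintype.card F ^ k - 1) / (Fintype.card F - 1)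

/-- The set `S(q,k)` of pairs `(m,n)` of positive integers such that `F^{m×n}` contains an MWS
rank-metric code of dimension `k`. -/
def S (F : Type) [Field F] [Fintype F] (k : ℕ) : Set (ℕ × ℕ) :=
  {mn | 0 < mn.1 ∧ 0 < mn.2 ∧ ∃ C : Submodule F (Matrix (Fin mn.1) (Fin mn.2) F), IsMWS k C}

/-- The least `n` such that `(m,n) ∈ S(q,k)` for some `m`. -/
noncomputable def nmin (F : Type) [Field F] [Fintype F] (k : ℕ) : ℕ :=
  sInf {n | ∃ m, (m, n) ∈ S F k}

/-! ### The pencil inequality -/

section pencil

set_option linter.unusedSectionVars false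
set_option linter.unusedSimpArgs false

variable {F V W : Type} [Field F] [Fintype F] [DecidableEq F] [AddCommGroup V] [Module F V]
  [FiniteDimensional F V] [AddCommGroup W] [Module F W] [FiniteDimensional F W]

theorem sum_eigen_le {U : Type} [AddCommGroup U] [Module F U] [FiniteDimensional F U]
    (T : End F U) : ∑ c : F, finrank F (T.eigenspace c) ≤ finrank F U := by
  have h := (Module.End.eigenspaces_iSupIndep T).dfinsupp_lsum_injective
  have h2 := LinearMap.finrank_le_finrank_of_injective
    (f := (DFinsupp.lsum F fun i => (T.eigenspace i).subtype)) h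
  rw [← Module.finrank_directSum (R := F) (fun c : F => T.eigenspace c)]
  exact h2

theorem pencil (f g : V →ₗ[F] W) :
    ∑ c : F, ((finrank F (LinearMap.range f) : ℤ) - finrank F (LinearMap.range (g - c • f)))
      ≤ finrank F (LinearMap.range f) := by
  obtain ⟨s, hs⟩ := LinearMap.exists_rightInverse_of_surjective f.rangeRestrict
    (LinearMap.range_rangeRestrict f)
  obtain ⟨π, hπ⟩ := LinearMap.exists_leftInverse_of_injective (LinearMap.range f).subtype
    (Submodule.ker_subtype _)
  let T : End F (LinearMap.range f) := π ∘ₗ g ∘ₗ s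
  have key : ∀ c : F, (finrank F (LinearMap.range f) : ℤ) -
      finrank F (LinearMap.range (g - c • f)) ≤ finrank F (T.eigenspace c) := by
    intro c
    have h1 : T - algebraMap F (End F (LinearMap.range f)) c = π ∘ₗ (g - c • f) ∘ₗ s := by
      ext x
      have hfs : f.rangeRestrict (s x) = x := LinearMap.congr_fun hs x
      have hfs' : f (s x) = (x : W) := by
        have := congrArg Subtype.val hfs
        simpa using this
      have hpx : π (x : W) = x := LinearMap.congr_fun hπ x
      simp only [T, LinearMap.sub_apply, LinearMap.comp_apply, LinearMap.smul_apply,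
        Module.algebraMap_end_apply, map_sub, map_smul, hfs', hpx]
    have h2 : finrank F (LinearMap.range (T - algebraMap F (End F (LinearMap.range f)) c)) ≤
        finrank F (LinearMap.range (g - c • f)) := by
      rw [h1]
      calc finrank F (LinearMap.range (π ∘ₗ (g - c • f) ∘ₗ s))
          ≤ finrank F ((LinearMap.range ((g - c • f))).map π) := by
            apply Submodule.finrank_mono
            rintro _ ⟨x, rfl⟩
            exact ⟨(g - c • f) (s x), ⟨s x, rfl⟩, rfl⟩
        _ ≤ finrank F (LinearMap.range (g - c • f)) := Submodule.finrank_map_le _ _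
    have h3 := LinearMap.finrank_range_add_finrank_ker
      (T - algebraMap F (End F (LinearMap.range f)) c)
    have h4 : LinearMap.ker (T - algebraMap F (End F (LinearMap.range f)) c) = T.eigenspace c := by
      rw [Module.End.eigenspace_def, Algebra.algebraMap_eq_smul_one]
    rw [h4] at h3
    omega
  calc _ ≤ ∑ c : F, (finrank F (T.eigenspace c) : ℤ) := Finset.sum_le_sum (fun c _ => key c)
    _ ≤ _ := by exact_mod_cast sum_eigen_le T

end pencil

/-! ### The lower bound -/

section lower

set_option linter.unusedSectionVars false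
set_option linter.unusedSimpArgs false

variable {F : Type} [Field F] [Fintype F] {m n : ℕ}

theorem rank_sub_smul (A B : Matrix (Fin m) (Fin n) F) (c : F) :
    (B - c • A).rank = finrank F (LinearMap.range (B.mulVecLin - c • A.mulVecLin)) := by
  have h : (B - c • A).mulVecLin = B.mulVecLin - c • A.mulVecLin := by
    apply LinearMap.ext
    intro x
    simp [Matrix.sub_mulVec, Matrix.smul_mulVec]
  rw [Matrix.rank, h]

theorem pencil_matrix [DecidableEq F] (A B : Matrix (Fin m) (Fin n) F) :
    ∑ c : F, ((A.rank : ℤ) - (B - c • A).rank) ≤ A.rank := by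
  have h := pencil A.mulVecLin B.mulVecLin
  have h2 : ∀ c : F, ((A.rank : ℤ) - (B - c • A).rank) =
      (finrank F (LinearMap.range A.mulVecLin) : ℤ) -
        finrank F (LinearMap.range (B.mulVecLin - c • A.mulVecLin)) := by
    intro c
    rw [rank_sub_smul]
    rfl
  rw [Finset.sum_congr rfl (fun c _ => h2 c)]
  exact h

theorem rank_smul_ne {c : F} (hc : c ≠ 0) (A : Matrix (Fin m) (Fin n) F) :
    (c • A).rank = A.rank := by
  have h : (c • A).mulVecLin = c • A.mulVecLin := by
    apply LinearMap.ext
    intro x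
    simp [Matrix.smul_mulVec]
  rw [Matrix.rank, h, Matrix.rank]
  have h2 : LinearMap.range (c • A.mulVecLin) = LinearMap.range A.mulVecLin :=
    LinearMap.range_smul _ _ hc
  rw [h2]

theorem lower (k : ℕ) (hk : 2 ≤ k) (C : Submodule F (Matrix (Fin m) (Fin n) F))
    (h : IsMWS k C) :
    Fintype.card F * ((Fintype.card F ^ k - 1) / (Fintype.card F - 1)) ≤ 2 * min m n := by
  classical
  obtain ⟨hdim, hcard⟩ := h
  set q := Fintype.card F with hq
  have hq2 : 2 ≤ q := Fintype.one_lt_card
  set N := (q ^ k - 1) / (q - 1) with hN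
  have hNgeom : N = ∑ i ∈ Finset.range k, q ^ i := (Nat.geomSum_eq hq2 k).symm
  have hI3 : (N : ℤ) * ((q : ℤ) - 1) = (q : ℤ) ^ k - 1 := by
    rw [hNgeom]
    push_cast
    exact geom_sum_mul (q : ℤ) k
  have hN2 : 2 ≤ N := by
    rw [hNgeom]
    obtain ⟨j, rfl⟩ := Nat.exists_eq_add_of_le hk
    rw [Nat.add_comm, Finset.sum_range_succ', Finset.sum_range_succ']
    have : 1 ≤ q ^ (0 + 1) := Nat.one_le_pow _ _ (by omega)
    have h0 : q ^ 0 = 1 := pow_zero q
    omega
  have : Fintype C := Fintype.ofFinite C
  have hC : Fintype.card C = q ^ k := by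
    rw [Module.card_eq_pow_finrank (K := F) (V := C), hdim]
  -- an element of maximal rank
  obtain ⟨A0, -, hA0⟩ := Finset.exists_max_image (Finset.univ : Finset C)
    (fun B => (B : Matrix (Fin m) (Fin n) F).rank) ⟨0, Finset.mem_univ _⟩
  set r := (A0 : Matrix (Fin m) (Fin n) F).rank with hr
  have hle : ∀ B : C, (B : Matrix (Fin m) (Fin n) F).rank ≤ r := fun B => hA0 B (Finset.mem_univ _)
  set g : C → ℤ := fun B => (r : ℤ) - (B : Matrix (Fin m) (Fin n) F).rank with hg
  have hg0 : ∀ B, 0 ≤ g B := fun B => by
    have := hle B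
    simp only [hg]
    omega
  -- summed pencil inequality
  have hI1 : (q : ℤ) * ∑ B : C, g B ≤ (q : ℤ) ^ k * r := by
    have h1 : ∑ B : C, ∑ c : F, g (B - c • A0) ≤ ∑ _B : C, (r : ℤ) := by
      apply Finset.sum_le_sum
      intro B _
      exact pencil_matrix (A0 : Matrix (Fin m) (Fin n) F) (B : Matrix (Fin m) (Fin n) F)
    rw [Finset.sum_comm] at h1
    have h2 : ∀ c : F, ∑ B : C, g (B - c • A0) = ∑ B : C, g B := fun c =>
      Equiv.sum_comp (Equiv.subRight (c • A0)) g
    rw [Finset.sum_congr rfl (fun c _ => h2 c)] at h1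
    simp only [Finset.sum_const, Finset.card_univ, nsmul_eq_mul, hC] at h1
    push_cast at h1
    exact h1
  -- splitting off zero
  have hsplit : ∑ B : C, g B = r + ∑ B ∈ (Finset.univ : Finset C).filter (fun B => B ≠ 0), g B := by
    rw [← Finset.sum_filter_add_sum_filter_not Finset.univ (fun B : C => B ≠ 0)]
    have h0 : (Finset.univ : Finset C).filter (fun B => ¬ B ≠ 0) = {0} := by
      ext B; simp
    rw [h0, Finset.sum_singleton]
    have : g 0 = r := by
      simp only [hg]
      simp
    rw [this, add_comm]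
  set X := (Finset.univ : Finset C).filter (fun B => B ≠ 0) with hX
  set ρ : C → ℕ := fun B => (B : Matrix (Fin m) (Fin n) F).rank with hρ
  set R := X.image ρ with hR
  have hRcard : R.card = N := by
    rw [← hcard, ← Set.ncard_coe_finset]
    congr 1
    ext t
    simp only [hR, hX, hρ, Finset.coe_image, Finset.coe_filter, Set.mem_image, Set.mem_ofPred_eq,
      Finset.mem_univ, true_and, rankSet]
    constructor
    · rintro ⟨B, hB, rfl⟩
      exact ⟨B, B.2, fun h => hB (Subtype.ext h), rfl⟩
    · rintro ⟨A, hA, hA0, rfl⟩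
      exact ⟨⟨A, hA⟩, fun h => hA0 (congrArg Subtype.val h), rfl⟩
  -- each rank is attained at least q-1 times
  have hfib : ∀ t ∈ R, q - 1 ≤ (X.filter (fun B => ρ B = t)).card := by
    intro t ht
    obtain ⟨B, hB, rfl⟩ := Finset.mem_image.1 ht
    have hB0 : B ≠ 0 := (Finset.mem_filter.1 hB).2
    have hcardU : Fintype.card Fˣ = q - 1 := Fintype.card_units F
    rw [← hcardU, ← Finset.card_univ]
    apply Finset.card_le_card_of_injOn (fun u : Fˣ => (u : F) • B)
    · intro u _
      simp only [Finset.coe_filter, hX, Finset.mem_filter, Finset.mem_univ, true_and,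
        Set.mem_ofPred_eq]
      refine ⟨smul_ne_zero u.ne_zero hB0, ?_⟩
      simp only [hρ]
      exact rank_smul_ne u.ne_zero _
    · intro u _ v _ huv
      have huv' : (u : F) • (B : Matrix (Fin m) (Fin n) F) = (v : F) • (B : Matrix (Fin m) (Fin n) F) :=
        congrArg Subtype.val huv
      have h1 : ((u : F) - (v : F)) • (B : Matrix (Fin m) (Fin n) F) = 0 := by
        rw [sub_smul, huv', sub_self]
      rcases smul_eq_zero.1 h1 with h2 | h2
      · exact Units.ext (sub_eq_zero.1 h2)
      · exact absurd (Subtype.ext h2) hB0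
  have hI2a : ((q : ℤ) - 1) * ∑ t ∈ R, ((r : ℤ) - t) ≤ ∑ B ∈ X, g B := by
    rw [← Finset.sum_fiberwise_of_maps_to (g := ρ) (t := R)
      (fun B hB => Finset.mem_image_of_mem ρ hB) g, Finset.mul_sum]
    apply Finset.sum_le_sum
    intro t ht
    have h1 : ∑ B ∈ X.filter (fun B => ρ B = t), g B =
        (X.filter (fun B => ρ B = t)).card * ((r : ℤ) - t) := by
      rw [← nsmul_eq_mul, ← Finset.sum_const]
      apply Finset.sum_congr rfl
      intro B hB
      have : ρ B = t := (Finset.mem_filter.1 hB).2
      simp only [hg]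
      rw [← this]
    rw [h1]
    apply mul_le_mul_of_nonneg_right
    · have := hfib t ht
      omega
    · obtain ⟨B, hB, rfl⟩ := Finset.mem_image.1 ht
      exact hg0 B
  have hI2b : (N : ℤ) * (N - 1) ≤ 2 * ∑ t ∈ R, ((r : ℤ) - t) := by
    have hinj : Function.Injective (fun t : ℕ => (r : ℤ) - t) := by
      intro a b hab
      have : (r : ℤ) - a = r - b := hab
      omega
    have h1 := Finset.sum_range_le_sum (s := R.image (fun t : ℕ => (r : ℤ) - t)) (c := 0) (by
      intro x hx
      obtain ⟨t, ht, rfl⟩ := Finset.mem_image.1 hx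
      obtain ⟨B, hB, rfl⟩ := Finset.mem_image.1 ht
      exact hg0 B)
    rw [Finset.card_image_of_injective _ hinj, hRcard,
      Finset.sum_image (fun a _ b _ hab => hinj hab)] at h1
    have h2 : (∑ i ∈ Finset.range N, ((0 : ℤ) + i)) * 2 = N * (N - 1) := by
      have h3 := Finset.sum_range_id_mul_two N
      have h4 : ((∑ i ∈ Finset.range N, i : ℕ) : ℤ) * 2 = ((N * (N - 1) : ℕ) : ℤ) := by
        exact_mod_cast h3
      rw [Nat.cast_mul, Nat.cast_sub (by omega)] at h4
      push_cast at h4
      simp only [zero_add]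
      exact h4
    linarith
  have hr_le : r ≤ min m n := le_min (Matrix.rank_le_height _) (Matrix.rank_le_width _)
  -- conclusion
  have hqz : (2 : ℤ) ≤ q := by exact_mod_cast hq2
  have hNz : (2 : ℤ) ≤ N := by exact_mod_cast hN2
  have hfin : (q : ℤ) * N ≤ 2 * r := by
    rw [hsplit] at hI1
    set T := ∑ B ∈ X, g B with hT
    set G := ∑ t ∈ R, ((r : ℤ) - t) with hG
    have h1 : (q : ℤ) * T ≤ (N - 1) * (q - 1) * r := by
      have : (q : ℤ) ^ k = N * (q - 1) + 1 := by linarith
      rw [this] at hI1
      nlinarith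
    have h2 : (q - 1 : ℤ) * (N * (N - 1)) ≤ 2 * T := by nlinarith
    have h3 : ((q : ℤ) * N) * ((N - 1) * (q - 1)) ≤ (2 * r) * ((N - 1) * (q - 1)) := by nlinarith
    exact le_of_mul_le_mul_right h3 (by nlinarith)
  have : q * N ≤ 2 * r := by exact_mod_cast hfin
  omega

end lower

/-! ### The construction for `k = 2` -/

section construction

set_option linter.unusedSectionVars false

variable {F : Type} [Field F] [Fintype F] [DecidableEq F]

/-- The `q + 1` functionals on `F²` (up to scalars). -/
def ell (o : Option F) (v : F × F) : F :=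
  match o with
  | none => v.1
  | some c => v.2 - c * v.1

theorem ell_add (o : Option F) (v w : F × F) : ell o (v + w) = ell o v + ell o w := by
  cases o with
  | none => simp [ell]
  | some c => simp [ell]; ring

theorem ell_smul (o : Option F) (a : F) (v : F × F) : ell o (a • v) = a * ell o v := by
  cases o with
  | none => simp [ell]
  | some c => simp [ell]; ring

/-- The functional vanishing at `v`. -/
def zeroAt (v : F × F) : Option F := if v.1 = 0 then none else some (v.2 / v.1)

theorem ell_eq_zero_iff (v : F × F) (hv : v ≠ 0) (o : Option F) :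
    ell o v = 0 ↔ o = zeroAt v := by
  unfold zeroAt
  by_cases h : v.1 = 0
  · rw [if_pos h]
    cases o with
    | none => simp [ell, h]
    | some c =>
      simp only [ell, h, mul_zero, sub_zero, reduceCtorEq, iff_false]
      intro h2
      exact hv (Prod.ext h h2)
  · rw [if_neg h]
    cases o with
    | none => simp [ell, h]
    | some c =>
      simp only [ell, Option.some.injEq]
      rw [sub_eq_zero, eq_div_iff h]
      exact eq_comm

/-- The numbering of the functionals. -/
noncomputable def num : Option F ≃ Fin (Fintype.card F + 1) :=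
  Fintype.equivFinOfCardEq (by simp)

variable (F) in
/-- The index set: the functional with number `j` is repeated `j` times. -/
abbrev J : Type := Σ o : Option F, Fin (num o : ℕ)

theorem card_J : 2 * Fintype.card (J F) = Fintype.card F * (Fintype.card F + 1) := by
  have h1 : Fintype.card (J F) = ∑ o : Option F, (num o : ℕ) := by
    rw [Fintype.card_sigma]
    simp
  have h2 : ∑ o : Option F, (num o : ℕ) = ∑ i : Fin (Fintype.card F + 1), (i : ℕ) :=
    Equiv.sum_comp num (fun i : Fin (Fintype.card F + 1) => (i : ℕ))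
  have h3 := Finset.sum_range_id_mul_two (Fintype.card F + 1)
  rw [Finset.sum_range (fun i => i)] at h3
  rw [h1, h2, mul_comm, h3]
  simp [mul_comm]

theorem card_zero (o : Option F) : (Finset.univ.filter (fun i : J F => i.1 = o)).card =
    (num o : ℕ) := by
  have h : Finset.univ.filter (fun i : J F => i.1 = o) =
      (Finset.univ : Finset (Fin (num o : ℕ))).image (fun t => (⟨o, t⟩ : J F)) := by
    ext ⟨p, t⟩
    simp only [Finset.mem_filter, Finset.mem_univ, true_and, Finset.mem_image]
    constructor
    · rintro rfl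
      exact ⟨t, rfl⟩
    · rintro ⟨t', ht'⟩
      exact (congrArg Sigma.fst ht').symm
  rw [h, Finset.card_image_of_injective, Finset.card_univ, Fintype.card_fin]
  intro a b hab
  exact eq_of_heq (Sigma.mk.inj hab).2

theorem rank_diag (v : F × F) (hv : v ≠ 0) :
    (Matrix.diagonal (fun i : J F => ell i.1 v)).rank = Fintype.card (J F) - num (zeroAt v) := by
  rw [Matrix.rank_diagonal, Fintype.card_subtype]
  have h1 : Finset.univ.filter (fun i : J F => ell i.1 v ≠ 0) =
      Finset.univ.filter (fun i : J F => ¬ i.1 = zeroAt v) := by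
    apply Finset.filter_congr
    intro i _
    exact not_congr (ell_eq_zero_iff v hv i.1)
  rw [h1, Finset.filter_not, Finset.card_sdiff_of_subset (Finset.filter_subset _ _), card_zero,
    Finset.card_univ]

/-- The 0-1 matrix of an embedding. -/
def emb {m : ℕ} (ι : J F ↪ Fin m) : Matrix (Fin m) (J F) F :=
  Matrix.of fun a i => if a = ι i then 1 else 0

theorem emb_mul {m : ℕ} (ι : J F ↪ Fin m) : (emb ι)ᵀ * emb ι = 1 := by
  ext i j
  rw [Matrix.mul_apply]
  simp only [emb, Matrix.transpose_apply, Matrix.of_apply, Matrix.one_apply]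
  simp only [ite_mul, one_mul, zero_mul, Finset.sum_ite_eq', Finset.mem_univ, if_true,
    ι.injective.eq_iff]

/-- The code. -/
noncomputable def code {m n : ℕ} (ι : J F ↪ Fin m) (κ : J F ↪ Fin n) :
    (F × F) →ₗ[F] Matrix (Fin m) (Fin n) F where
  toFun v := emb ι * Matrix.diagonal (fun i : J F => ell i.1 v) * (emb κ)ᵀ
  map_add' v w := by
    have h : Matrix.diagonal (fun i : J F => ell i.1 (v + w)) =
        Matrix.diagonal (fun i : J F => ell i.1 v) +
          Matrix.diagonal (fun i : J F => ell i.1 w) := by
      rw [Matrix.diagonal_add]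
      congr 1
      funext i
      exact ell_add _ _ _
    rw [h, Matrix.mul_add, Matrix.add_mul]
  map_smul' a v := by
    have h : Matrix.diagonal (fun i : J F => ell i.1 (a • v)) =
        a • Matrix.diagonal (fun i : J F => ell i.1 v) := by
      rw [← Matrix.diagonal_smul]
      congr 1
      funext i
      simp [ell_smul]
    rw [h, Matrix.mul_smul, Matrix.smul_mul]
    rfl

theorem rank_code {m n : ℕ} (ι : J F ↪ Fin m) (κ : J F ↪ Fin n) (v : F × F) (hv : v ≠ 0) :
    (code ι κ v).rank = Fintype.card (J F) - num (zeroAt v) := by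
  rw [← rank_diag v hv]
  apply le_antisymm
  · calc (code ι κ v).rank ≤ (emb ι * Matrix.diagonal (fun i : J F => ell i.1 v)).rank :=
          Matrix.rank_mul_le_left _ _
      _ ≤ _ := Matrix.rank_mul_le_right _ _
  · have h : Matrix.diagonal (fun i : J F => ell i.1 v) =
        (emb ι)ᵀ * (code ι κ v) * emb κ := by
      change _ = (emb ι)ᵀ * (emb ι * Matrix.diagonal (fun i : J F => ell i.1 v) * (emb κ)ᵀ) *
        emb κ
      rw [Matrix.mul_assoc, Matrix.mul_assoc (emb ι * _), emb_mul, Matrix.mul_one,
        ← Matrix.mul_assoc, emb_mul, Matrix.one_mul]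
    calc (Matrix.diagonal (fun i : J F => ell i.1 v)).rank
        = ((emb ι)ᵀ * (code ι κ v) * emb κ).rank := by rw [← h]
      _ ≤ ((emb ι)ᵀ * (code ι κ v)).rank := Matrix.rank_mul_le_left _ _
      _ ≤ _ := Matrix.rank_mul_le_right _ _

theorem exists_code {m n : ℕ} (h : Fintype.card F * (Fintype.card F + 1) ≤ 2 * min m n) :
    ∃ C : Submodule F (Matrix (Fin m) (Fin n) F), IsMWS 2 C := by
  have hq2 : 2 ≤ Fintype.card F := Fintype.one_lt_card
  have hJ := card_J (F := F)
  have hJq' : Fintype.card F ≤ Fintype.card (J F) := by nlinarith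
  have hJpos : Fintype.card F < Fintype.card (J F) + 1 := by omega
  obtain ⟨ι⟩ : Nonempty (J F ↪ Fin m) := by
    apply Function.Embedding.nonempty_of_card_le
    rw [Fintype.card_fin]
    omega
  obtain ⟨κ⟩ : Nonempty (J F ↪ Fin n) := by
    apply Function.Embedding.nonempty_of_card_le
    rw [Fintype.card_fin]
    omega
  have hnum : ∀ o : Option F, (num o : ℕ) ≤ Fintype.card F := fun o => by
    have := (num o).isLt
    omega
  have hinj : Function.Injective (code ι κ) := by
    rw [← LinearMap.ker_eq_bot, LinearMap.ker_eq_bot']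
    intro v hv
    by_contra hne
    -- use the diagonal entries
    have hD : Matrix.diagonal (fun i : J F => ell i.1 v) = 0 := by
      have h2 : Matrix.diagonal (fun i : J F => ell i.1 v) =
          (emb ι)ᵀ * (code ι κ v) * emb κ := by
        change _ = (emb ι)ᵀ * (emb ι * Matrix.diagonal (fun i : J F => ell i.1 v) * (emb κ)ᵀ) *
          emb κ
        rw [Matrix.mul_assoc, Matrix.mul_assoc (emb ι * _), emb_mul, Matrix.mul_one,
          ← Matrix.mul_assoc, emb_mul, Matrix.one_mul]
      rw [h2, hv]
      simp
    -- two different functionals with positive multiplicity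
    have key : ∀ o : Option F, 0 < (num o : ℕ) → ell o v = 0 := by
      intro o ho
      have := congrFun (congrFun hD ⟨o, ⟨0, ho⟩⟩) ⟨o, ⟨0, ho⟩⟩
      simpa using this
    have ho1 := key (num.symm ⟨1, by omega⟩) (by simp)
    have ho2 := key (num.symm ⟨2, by omega⟩) (by simp)
    rw [ell_eq_zero_iff v hne] at ho1 ho2
    have := num.symm.injective (ho1.trans ho2.symm)
    simp at this
  refine ⟨LinearMap.range (code ι κ), ?_, ?_⟩
  · rw [LinearMap.finrank_range_of_inj hinj, Module.finrank_prod, Module.finrank_self]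
  · have hset : rankSet (LinearMap.range (code ι κ)) =
        (fun i : Fin (Fintype.card F + 1) => Fintype.card (J F) - (i : ℕ)) '' Set.univ := by
      ext t
      constructor
      · rintro ⟨A, ⟨v, rfl⟩, hA, rfl⟩
        have hv : v ≠ 0 := by
          rintro rfl
          exact hA (map_zero _)
        exact ⟨num (zeroAt v), trivial, (rank_code ι κ v hv).symm⟩
      · rintro ⟨i, -, rfl⟩
        obtain ⟨v, hv, hvo⟩ : ∃ v : F × F, v ≠ 0 ∧ zeroAt v = num.symm i := by
          cases ho : (num.symm i : Option F) with
          | none => exact ⟨(0, 1), by simp, by simp [zeroAt]⟩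
          | some c => exact ⟨(1, c), by simp, by simp [zeroAt]⟩
        refine ⟨code ι κ v, ⟨v, rfl⟩, ?_, ?_⟩
        · intro h0
          exact hv (hinj (by rw [h0, map_zero]))
        · rw [rank_code ι κ v hv, hvo, Equiv.apply_symm_apply]
    rw [hset, Set.ncard_image_of_injective _ ?_, Set.ncard_univ, Nat.card_eq_fintype_card,
      Fintype.card_fin]
    · symm
      apply Nat.div_eq_of_eq_mul_left (by omega)
      obtain ⟨t, ht⟩ := Nat.exists_eq_add_of_le hq2
      rw [ht]
      have : (2 + t) ^ 2 = (2 + t + 1) * (2 + t - 1) + 1 := by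
        have : 2 + t - 1 = t + 1 := by omega
        rw [this]
        ring
      omega
    · intro a b hab
      have h1 : Fintype.card (J F) - (a : ℕ) = Fintype.card (J F) - (b : ℕ) := hab
      have := a.isLt
      have := b.isLt
      apply Fin.ext
      omega

end construction

/-- For every finite field `F` with `q` elements and every `k ≥ 2`, an MWS rank-metric code of
dimension `k` in `F^{m×n}` has `min(m,n) ≥ q (q^k - 1) / (2 (q - 1))`; for `k = 2` the set of
possible `(m,n)` is exactly `min(m,n) ≥ q(q+1)/2`, so the least `n` is `q(q+1)/2`. -/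
theorem result (F : Type) [Field F] [Fintype F] :
    (∀ k : ℕ, 2 ≤ k → ∀ mn ∈ S F k,
      Fintype.card F * ((Fintype.card F ^ k - 1) / (Fintype.card F - 1)) ≤ 2 * min mn.1 mn.2) ∧
    S F 2 = {mn : ℕ × ℕ | Fintype.card F * (Fintype.card F + 1) ≤ 2 * min mn.1 mn.2} ∧
    nmin F 2 = Fintype.card F * (Fintype.card F + 1) / 2 := by
  classical
  have hq2 : 2 ≤ Fintype.card F := Fintype.one_lt_card
  have h1 : ∀ k : ℕ, 2 ≤ k → ∀ mn ∈ S F k,
      Fintype.card F * ((Fintype.card F ^ k - 1) / (Fintype.card F - 1)) ≤
        2 * min mn.1 mn.2 := by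
    rintro k hk mn ⟨-, -, C, hC⟩
    exact lower k hk C hC
  have hdiv : (Fintype.card F ^ 2 - 1) / (Fintype.card F - 1) = Fintype.card F + 1 := by
    apply Nat.div_eq_of_eq_mul_left (by omega)
    obtain ⟨t, ht⟩ := Nat.exists_eq_add_of_le hq2
    rw [ht]
    have : (2 + t) ^ 2 = (2 + t + 1) * (2 + t - 1) + 1 := by
      have : 2 + t - 1 = t + 1 := by omega
      rw [this]
      ring
    omega
  have h2 : S F 2 = {mn : ℕ × ℕ | Fintype.card F * (Fintype.card F + 1) ≤
      2 * min mn.1 mn.2} := by
    ext mn
    constructor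
    · intro h
      have := h1 2 le_rfl mn h
      rwa [hdiv] at this
    · intro h
      have hpos : 0 < min mn.1 mn.2 := by
        have h' : Fintype.card F * (Fintype.card F + 1) ≤ 2 * min mn.1 mn.2 := h
        nlinarith
      exact ⟨by omega, by omega, exists_code h⟩
  refine ⟨h1, h2, ?_⟩
  unfold nmin
  rw [h2]
  have heven : Even (Fintype.card F * (Fintype.card F + 1)) := Nat.even_mul_succ_self _
  obtain ⟨t, ht⟩ := heven
  apply le_antisymm
  · apply Nat.sInf_le
    refine ⟨t, ?_⟩
    change _ ≤ 2 * min t _
    have : Fintype.card F * (Fintype.card F + 1) / 2 = t := by omega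
    rw [this, min_self]
    omega
  · apply le_csInf
    · refine ⟨t, t, ?_⟩
      change _ ≤ 2 * min t t
      rw [min_self]
      omega
    · rintro n ⟨m, hm⟩
      have hm' : Fintype.card F * (Fintype.card F + 1) ≤ 2 * min m n := hm
      omega

end Pool.Agent.Results.MP_bfa999_lc.LengthBound
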